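import Pool.Agent.H70.RK.T2

/-!
# ACL: adaptive questions are formulas
-/

set_option autoImplicit false

namespace Pool.Agent.H69.RK

open Pool.Agent.H70.RK Pool.Agent.H6.NB

open Classical in
/-- the leaves of an adaptive computation -/
theorem adp_leaves {V α : Type} (q : ((V → Bool) → Bool) → Prop) (a : α) {c : ℕ}
    {g : (V → Bool) → α} (h : Adp q c g) :
    ∃ Lf : List (List (((V → Bool) → Bool) × Bool)), Lf.length ≤ 2 ^ c ∧
      (∀ l ∈ Lf, l.length ≤ c ∧ ∀ p ∈ l, q p.1) ∧
      ∀ X, (g X = a ↔ ∃ l ∈ Lf, ∀ p ∈ l, p.1 X = p.2) := by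
  induction h with
  | pure c a' =>
    by_cases haa : a' = a
    · refine ⟨[[]], ?_, ?_, ?_⟩
      · simpa using Nat.one_le_two_pow
      · intro l hl
        rw [List.mem_singleton] at hl
        subst hl
        simp
      · intro X
        simp [haa]
    · refine ⟨[], by simp, by simp, fun X => ?_⟩
      simp [haa]
  | ask c p g g0 g1 hp h0 h1 hg1 hg0 ih0 ih1 =>
    obtain ⟨L0, hl0, hq0, hX0⟩ := ih0
    obtain ⟨L1, hl1, hq1, hX1⟩ := ih1
    refine ⟨L0.map (List.cons (p, false)) ++ L1.map (List.cons (p, true)), ?_, ?_, ?_⟩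
    · rw [List.length_append, List.length_map, List.length_map, pow_succ]
      omega
    · intro l hl
      rw [List.mem_append, List.mem_map, List.mem_map] at hl
      rcases hl with ⟨l', hl', rfl⟩ | ⟨l', hl', rfl⟩
      · obtain ⟨h3, h4⟩ := hq0 l' hl'
        refine ⟨by rw [List.length_cons]; omega, ?_⟩
        intro x hx
        rw [List.mem_cons] at hx
        rcases hx with rfl | hx
        · exact hp
        · exact h4 x hx
      · obtain ⟨h3, h4⟩ := hq1 l' hl'
        refine ⟨by rw [List.length_cons]; omega, ?_⟩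
        intro x hx
        rw [List.mem_cons] at hx
        rcases hx with rfl | hx
        · exact hp
        · exact h4 x hx
    · intro X
      cases hpX : p X with
      | false =>
        rw [hg0 X hpX, hX0 X]
        constructor
        · rintro ⟨l, hl, h⟩
          refine ⟨(p, false) :: l, List.mem_append_left _ (List.mem_map.2 ⟨l, hl, rfl⟩), ?_⟩
          intro x hx
          rw [List.mem_cons] at hx
          rcases hx with rfl | hx
          · exact hpX
          · exact h x hx
        · rintro ⟨l, hl, h⟩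
          rw [List.mem_append, List.mem_map, List.mem_map] at hl
          rcases hl with ⟨l', hl', rfl⟩ | ⟨l', hl', rfl⟩
          · exact ⟨l', hl', fun x hx => h x (List.mem_cons_of_mem _ hx)⟩
          · have := h (p, true) List.mem_cons_self
            simp only at this
            rw [hpX] at this
            exact absurd this (by decide)
      | true =>
        rw [hg1 X hpX, hX1 X]
        constructor
        · rintro ⟨l, hl, h⟩
          refine ⟨(p, true) :: l, List.mem_append_right _ (List.mem_map.2 ⟨l, hl, rfl⟩), ?_⟩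
          intro x hx
          rw [List.mem_cons] at hx
          rcases hx with rfl | hx
          · exact hpX
          · exact h x hx
        · rintro ⟨l, hl, h⟩
          rw [List.mem_append, List.mem_map, List.mem_map] at hl
          rcases hl with ⟨l', hl', rfl⟩ | ⟨l', hl', rfl⟩
          · have := h (p, false) List.mem_cons_self
            simp only at this
            rw [hpX] at this
            exact absurd this (by decide)
          · exact ⟨l', hl', fun x hx => h x (List.mem_cons_of_mem _ hx)⟩

open Classical in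
/-- adaptive questions from the class -/
theorem adp_cl (hCLB : T_CLB) {V α : Type} (q : ((V → Bool) → Bool) → Prop) (a : α) {c S d : ℕ}
    (hS : 2 ≤ S) (hc : 2 ^ c ≤ S) (hq : ∀ p, q p → Cl V S d p) {g : (V → Bool) → α}
    (h : Adp q c g) : Cl V S (d + 2) fun X => decide (g X = a) := by
  obtain ⟨Lf, hl, hLq, hX⟩ := adp_leaves q a h
  obtain ⟨-, -, -, hlist, -⟩ := hCLB V S hS
  -- the negations of the leaves
  let hh : List (((V → Bool) → Bool) × Bool) → (V → Bool) → Bool :=
    fun l X => decide (∃ p ∈ l, p.1 X = !p.2)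
  have h1 : ∀ l ∈ Lf, Cl V S (d + 1) (hh l) := by
    intro l hlL
    obtain ⟨h2, h3⟩ := hLq l hlL
    refine hlist d (l.map fun p => (p.1, !p.2)) (hh l) ?_ ?_ ?_
    · rw [List.length_map]
      have := Nat.lt_two_pow_self (n := c)
      omega
    · intro x hx
      obtain ⟨p, hp, rfl⟩ := List.mem_map.1 hx
      exact hq _ (h3 p hp)
    · intro X
      show decide (∃ p ∈ l, p.1 X = !p.2) = true ↔ _
      rw [decide_eq_true_iff]
      constructor
      · rintro ⟨p, hp, h4⟩
        exact ⟨_, List.mem_map.2 ⟨p, hp, rfl⟩, h4⟩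
      · rintro ⟨x, hx, h4⟩
        obtain ⟨p, hp, rfl⟩ := List.mem_map.1 hx
        exact ⟨p, hp, h4⟩
  refine hlist (d + 1) (Lf.map fun l => (hh l, false)) _ ?_ ?_ ?_
  · rw [List.length_map]
    omega
  · intro x hx
    obtain ⟨l, hl', rfl⟩ := List.mem_map.1 hx
    exact h1 l hl'
  · intro X
    rw [decide_eq_true_iff, hX X]
    have h5 : ∀ l : List (((V → Bool) → Bool) × Bool), hh l X = false ↔
        ∀ p ∈ l, p.1 X = p.2 := by
      intro l
      show decide (∃ p ∈ l, p.1 X = !p.2) = false ↔ _
      rw [decide_eq_false_iff_not]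
      constructor
      · intro h6 p hp
        by_contra h7
        exact h6 ⟨p, hp, by cases h8 : p.1 X <;> cases h9 : p.2 <;> simp_all⟩
      · rintro h6 ⟨p, hp, h7⟩
        rw [h6 p hp] at h7
        cases h8 : p.2 <;> simp [h8] at h7
    constructor
    · rintro ⟨l, hl', h6⟩
      exact ⟨_, List.mem_map.2 ⟨l, hl', rfl⟩, (h5 l).2 h6⟩
    · rintro ⟨x, hx, h6⟩
      obtain ⟨l, hl', rfl⟩ := List.mem_map.1 hx
      exact ⟨l, hl', (h5 l).1 h6⟩

/-- questions of level `j` are in the class -/
theorem qst_cl (hCLB : T_CLB) (V : Type) (t S : ℕ) (hS : 2 ≤ S) (ht : 2 ^ t ≤ S) (j : ℕ) :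
    ∀ p, Qst V t j p → Cl V S (3 * j) p := by
  classical
  induction j with
  | zero =>
    rintro p ⟨v, hv⟩
    exact Or.inr ⟨v, hv⟩
  | succ j ih =>
    rintro p ⟨L, hL, hg, hX⟩
    obtain ⟨-, -, -, hlist, -⟩ := hCLB V S hS
    have h1 : 3 * (j + 1) = 3 * j + 2 + 1 := by ring
    rw [h1]
    refine hlist (3 * j + 2) (L.map fun g => (g, true)) p ?_ ?_ ?_
    · rw [List.length_map]
      omega
    · intro x hx
      obtain ⟨g, hgL, rfl⟩ := List.mem_map.1 hx
      have h2 := adp_cl hCLB (Qst V t j) true hS ht ih (hg g hgL)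
      have h3 : (fun X => decide (g X = true)) = g := by
        funext X
        cases g X <;> rfl
      have h4 : Cl V S (3 * j + 2) g := by
        have h5 : (fun X => @decide (g X = true) (Classical.propDecidable _)) = g := by
          funext X
          cases h6 : g X <;> simp
        rw [← h5]
        exact h2
      exact h4
    · intro X
      rw [hX X]
      constructor
      · rintro ⟨g, hgL, h6⟩
        exact ⟨_, List.mem_map.2 ⟨g, hgL, rfl⟩, h6⟩
      · rintro ⟨x, hx, h6⟩
        obtain ⟨g, hgL, rfl⟩ := List.mem_map.1 hx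
        exact ⟨g, hgL, h6⟩

theorem pf_ACL (hCLB : Pool.Agent.H6.NB.T_CLB) : Pool.Agent.H70.RK.T_ACL := by
  intro V α t j c S g a hS ht hc h
  exact adp_cl hCLB (Qst V t j) a hS hc (qst_cl hCLB V t S hS ht j) h

end Pool.Agent.H69.RK
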