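import Pool.Agent.H92.RK.Targets

/-!
Circles of large radius, invariant functions.
-/

open MeasureTheory Set
open scoped ENNReal

namespace Pool.Agent.H69.RK

open Pool.Agent.H92.RK

theorem pf_FA0 (hCIC : T_CIC) (hHOL : T_HOL) : T_FA0 := by
  intro k x g g' ρ hk hx hC hQ hρ hint hzero
  have hxpos : 0 < x := by linarith
  have hpi : 3.1415 < Real.pi := Real.pi_gt_d4
  have hpi0 : 0 < Real.pi := Real.pi_pos
  have hX : 5 / 4 ≤ Real.pi ^ 2 * x / 15 := by
    have h1 : (3.1415 : ℝ) ^ 2 ≤ Real.pi ^ 2 := by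
      apply pow_le_pow_left₀ (by norm_num) hpi.le
    have h2 : (3.1415 : ℝ) ^ 2 * (19 / 10) ≤ Real.pi ^ 2 * x := by
      apply mul_le_mul h1 hx (by norm_num) (by positivity)
    rw [le_div_iff₀ (by norm_num : (0 : ℝ) < 15)]
    refine le_trans ?_ h2
    norm_num
  have hper : ∀ θ, ‖g (θ + 2 * Real.pi / k)‖ = ‖g θ‖ := by
    intro θ
    rw [hQ θ]
    simp
  have hc := hCIC k g g' (Real.pi ^ 2 * x / 15) hk hC hper hX
  have hgc : Continuous g := continuous_iff_continuousAt.mpr fun y => (hC.1 y).continuousAt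
  have hh := hHOL (fun θ => ‖g θ‖) ρ hgc.norm (fun θ => norm_nonneg _) hρ hint
    (fun θ h => by rw [hzero θ h, norm_zero])
  set n := ∫ θ in (-Real.pi)..Real.pi, ‖g θ‖ ^ 2 with hn
  set e := ∫ θ in (-Real.pi)..Real.pi, ‖g' θ‖ ^ 2 with he
  set H := ∫ θ in (-Real.pi)..Real.pi, ‖g θ‖ ^ (2 / 3 : ℝ) with hH
  have hpp : -Real.pi ≤ Real.pi := by linarith
  have hH0 : 0 ≤ H := by
    rw [hH]
    apply intervalIntegral.integral_nonneg hpp
    intro u _
    positivity
  have he0 : 0 ≤ e := by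
    rw [he]
    apply intervalIntegral.integral_nonneg hpp
    intro u _
    positivity
  have h1 : 15 * n ≤ e / x + Real.pi ^ 2 * x * (H ^ 3 / (4 * Real.pi ^ 2)) := by
    have h2 : 15 * n ≤ 15 * (Real.pi ^ 2 / (225 * (Real.pi ^ 2 * x / 15)) * e +
        Real.pi ^ 2 * x / 15 / (4 * Real.pi ^ 2) * H ^ 3) := by linarith
    refine h2.trans (le_of_eq ?_)
    field_simp
    ring
  calc ENNReal.ofReal (15 * n)
      ≤ ENNReal.ofReal (e / x + Real.pi ^ 2 * x * (H ^ 3 / (4 * Real.pi ^ 2))) :=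
        ENNReal.ofReal_le_ofReal h1
    _ = ENNReal.ofReal (e / x) +
        ENNReal.ofReal (Real.pi ^ 2 * x) * ENNReal.ofReal (H ^ 3 / (4 * Real.pi ^ 2)) := by
        rw [ENNReal.ofReal_add (by positivity) (by positivity),
          ENNReal.ofReal_mul (by positivity)]
    _ ≤ ENNReal.ofReal (e / x) + ENNReal.ofReal (Real.pi ^ 2 * x) *
        ∫⁻ θ in Ioo (-Real.pi) Real.pi, ENNReal.ofReal (‖g θ‖ ^ 2) / ρ θ ^ 2 := by
        gcongr
    _ = ENNReal.ofReal (e / x) + ∫⁻ θ in Ioo (-Real.pi) Real.pi,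
        ENNReal.ofReal (Real.pi ^ 2 * x) / ρ θ ^ 2 * ENNReal.ofReal (‖g θ‖ ^ 2) := by
        rw [← lintegral_const_mul' _ _ ENNReal.ofReal_ne_top]
        congr 1
        apply lintegral_congr
        intro θ
        rw [div_eq_mul_inv, div_eq_mul_inv]
        ring

end Pool.Agent.H69.RK
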