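import Pool.Agent.H92.RK.Targets

/-!
The integral in polar coordinates.
-/

open MeasureTheory Set
open scoped ENNReal

namespace Pool.Agent.H69.RK

open Pool.Agent.H92.RK

theorem lint_prod (h : E2 → ℝ≥0∞) (hh : Measurable h) :
    ∫⁻ z, h z = ∫⁻ p : ℝ × ℝ, h (!₂[p.1, p.2]) := by
  have h1 : MeasurePreserving (fun p : ℝ × ℝ =>
      (WithLp.toLp 2 ((MeasurableEquiv.finTwoArrow (α := ℝ)).symm p) : E2)) := by
    exact (PiLp.volume_preserving_toLp (Fin 2)).comp (volume_preserving_finTwoArrow ℝ).symm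
  rw [← h1.lintegral_comp hh]
  rfl

theorem pf_LPO : T_LPO := by
  intro h hh
  rw [lint_prod h hh, ← lintegral_comp_polarCoord_symm]
  have ht : polarCoord.target = Ioi (0 : ℝ) ×ˢ Ioo (-Real.pi) Real.pi := rfl
  rw [ht]
  have hm : Measurable fun p : ℝ × ℝ => h (pt p.1 p.2) * ENNReal.ofReal p.1 := by
    apply Measurable.mul
    · apply hh.comp
      apply Measurable.comp (g := fun x : Fin 2 → ℝ => (WithLp.toLp 2 x : E2))
        (f := fun p : ℝ × ℝ => ![p.1 * Real.cos p.2, p.1 * Real.sin p.2])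
      · exact (PiLp.continuous_toLp 2 _).measurable
      · apply measurable_pi_lambda
        intro i
        fin_cases i
        · simp only [Fin.zero_eta, Matrix.cons_val_zero]
          fun_prop
        · simp only [Fin.mk_one, Matrix.cons_val_one]
          fun_prop
    · fun_prop
  calc ∫⁻ p in Ioi (0 : ℝ) ×ˢ Ioo (-Real.pi) Real.pi,
        ENNReal.ofReal p.1 • h (!₂[(polarCoord.symm p).1, (polarCoord.symm p).2])
      = ∫⁻ p in Ioi (0 : ℝ) ×ˢ Ioo (-Real.pi) Real.pi,
        h (pt p.1 p.2) * ENNReal.ofReal p.1 := by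
        apply lintegral_congr
        intro p
        rw [smul_eq_mul, mul_comm]
        rfl
    _ = ∫⁻ r in Ioi (0 : ℝ), ∫⁻ θ in Ioo (-Real.pi) Real.pi,
        h (pt r θ) * ENNReal.ofReal r := by
        rw [Measure.volume_eq_prod, ← Measure.prod_restrict, lintegral_prod _ hm.aemeasurable]

end Pool.Agent.H69.RK
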