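import Pool.Agent.H70.RK.T2

/-!
# TVX: a bit planted at a random place of a random table is hardly seen
-/

set_option autoImplicit false

namespace Pool.Agent.H69.RK

open Finset

section

variable {A : Type} [Fintype A] [DecidableEq A]

/-- flip the bit at `a` -/
def flip (a : A) (g : A → Bool) : A → Bool := Function.update g a (!g a)

theorem flip_flip (a : A) (g : A → Bool) : flip a (flip a g) = g := by
  unfold flip
  rw [Function.update_self, Bool.not_not, Function.update_idem, Function.update_eq_self]

/-- the sign -/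
def sg (b : Bool) (a : A) (g : A → Bool) : ℝ := if g a = b then 1 else -1

theorem sg_flip (b : Bool) (a : A) (g : A → Bool) : sg b a (flip a g) = -sg b a g := by
  unfold sg flip
  rw [Function.update_self]
  cases b <;> cases g a <;> simp

theorem sg_flip_ne (b : Bool) {a a' : A} (h : a' ≠ a) (g : A → Bool) :
    sg b a' (flip a g) = sg b a' g := by
  unfold sg flip
  rw [Function.update_of_ne h]

theorem sum_mul_sg (b : Bool) (a : A) (Φ : (A → Bool) → ℝ) (hΦ : ∀ g, Φ (flip a g) = Φ g) :
    ∑ g, Φ g * sg b a g = 0 := by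
  have h1 : ∑ g, Φ g * sg b a g = ∑ g, Φ (flip a g) * sg b a (flip a g) :=
    (Equiv.sum_comp (Function.Involutive.toPerm (flip a) (flip_flip a))
      (fun g => Φ g * sg b a g)).symm
  have h2 : ∑ g, Φ (flip a g) * sg b a (flip a g) = -∑ g, Φ g * sg b a g := by
    rw [← Finset.sum_neg_distrib]
    refine Finset.sum_congr rfl fun g _ => ?_
    rw [hΦ, sg_flip, mul_neg]
  linarith

theorem sum_update (F : (A → Bool) → ℝ) (b : Bool) (a : A) :
    ∑ g, F (Function.update g a b) = ∑ g, F g * (1 + sg b a g) := by
  have h1 : ∀ g : A → Bool, F g * (1 + sg b a g) =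
      F (Function.update g a b) + F (Function.update g a b) * sg b a g := by
    intro g
    unfold sg
    split_ifs with h
    · rw [← h, Function.update_eq_self]
      ring
    · ring
  rw [Finset.sum_congr rfl fun g _ => h1 g, Finset.sum_add_distrib,
    sum_mul_sg b a (fun g => F (Function.update g a b)) (fun g => ?_), add_zero]
  unfold flip
  rw [Function.update_idem]

theorem sum_sq (b : Bool) : ∑ g : A → Bool, (∑ a, sg b a g) ^ 2 =
    (Fintype.card A : ℝ) * Fintype.card (A → Bool) := by
  have h1 : ∀ g : A → Bool, (∑ a, sg b a g) ^ 2 = ∑ a, ∑ a', sg b a g * sg b a' g := by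
    intro g
    rw [sq, Finset.sum_mul_sum]
  rw [Finset.sum_congr rfl fun g _ => h1 g, Finset.sum_comm]
  have h2 : ∀ a : A, ∑ g : A → Bool, ∑ a', sg b a g * sg b a' g =
      (Fintype.card (A → Bool) : ℝ) := by
    intro a
    rw [Finset.sum_comm, Finset.sum_eq_single a]
    · have : ∀ g : A → Bool, sg b a g * sg b a g = 1 := by
        intro g
        unfold sg
        split_ifs <;> norm_num
      rw [Finset.sum_congr rfl fun g _ => this g]
      simp
    · intro a' _ ha'
      have := sum_mul_sg b a' (fun g => sg b a g) (fun g => sg_flip_ne b (Ne.symm ha') g)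
      exact this
    · intro h
      exact absurd (Finset.mem_univ a) h
  rw [Finset.sum_congr rfl fun a _ => h2 a, Finset.sum_const, Finset.card_univ, nsmul_eq_mul]

end

theorem pf_TVX : Pool.Agent.H70.RK.T_TVX := by
  intro A _ _ F b hF
  have h1 : ∑ a, ∑ g, F (Function.update g a b) =
      (Fintype.card A : ℝ) * ∑ g, F g + ∑ g, F g * ∑ a, sg b a g := by
    rw [Finset.sum_congr rfl fun a _ => sum_update F b a]
    have h2 : ∀ a : A, ∑ g, F g * (1 + sg b a g) = ∑ g, F g + ∑ g, F g * sg b a g := by
      intro a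
      rw [← Finset.sum_add_distrib]
      exact Finset.sum_congr rfl fun g _ => by ring
    rw [Finset.sum_congr rfl fun a _ => h2 a, Finset.sum_add_distrib, Finset.sum_const,
      Finset.card_univ, nsmul_eq_mul, Finset.sum_comm]
    congr 1
    exact Finset.sum_congr rfl fun g _ => (Finset.mul_sum _ _ _).symm
  rw [h1]
  have h3 : -∑ g : A → Bool, |∑ a, sg b a g| ≤ ∑ g, F g * ∑ a, sg b a g := by
    rw [← Finset.sum_neg_distrib]
    refine Finset.sum_le_sum fun g _ => ?_
    have h4 := hF g
    have h5 : |F g * ∑ a, sg b a g| ≤ |∑ a, sg b a g| := by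
      rw [abs_mul, abs_of_nonneg h4.1]
      exact mul_le_of_le_one_left (abs_nonneg _) h4.2
    have h6 := neg_abs_le (F g * ∑ a, sg b a g)
    linarith
  have h7 : ∑ g : A → Bool, |∑ a, sg b a g| ≤
      √(Fintype.card A) * Fintype.card (A → Bool) := by
    have h8 : (∑ g : A → Bool, |∑ a, sg b a g|) ^ 2 ≤
        (Fintype.card (A → Bool) : ℝ) * ∑ g : A → Bool, |∑ a, sg b a g| ^ 2 := by
      have := sq_sum_le_card_mul_sum_sq (s := (Finset.univ : Finset (A → Bool)))
        (f := fun g => |∑ a, sg b a g|)
      rwa [Finset.card_univ] at this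
    simp only [sq_abs] at h8
    rw [sum_sq] at h8
    have h9 : (∑ g : A → Bool, |∑ a, sg b a g|) ^ 2 ≤
        (√(Fintype.card A) * Fintype.card (A → Bool)) ^ 2 := by
      rw [mul_pow, Real.sq_sqrt (Nat.cast_nonneg _)]
      refine h8.trans (le_of_eq ?_)
      ring
    exact (pow_le_pow_iff_left₀ (Finset.sum_nonneg fun _ _ => abs_nonneg _) (by positivity) two_ne_zero).1 h9
  linarith

end Pool.Agent.H69.RK
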